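import Pool.Agent.Lib.MP_5f8094_an.Main

set_option autoImplicit false

namespace Pool.Agent.Results.MP_5f8094_an.Permanence

open MeasureTheory

/-- `x` is a solution, on the interval `I`, of the variable-`k` system generated by the edge set
`E` with rate functions `k`: it is positive, absolutely continuous on compact subintervals, and
satisfies the equation almost everywhere on `I`. -/
def IsSolution {n : ℕ} (E : Finset ((Fin n → ℝ) × (Fin n → ℝ)))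
    (k : (Fin n → ℝ) × (Fin n → ℝ) → ℝ → ℝ) (I : Set ℝ) (x : ℝ → Fin n → ℝ) : Prop :=
  I.OrdConnected ∧ (∀ t ∈ I, ∀ i, 0 < x t i) ∧
    (∀ a ∈ I, ∀ b ∈ I, AbsolutelyContinuousOnInterval x a b) ∧
    ∀ᵐ t, t ∈ I → HasDerivAt x (∑ e ∈ E, (k e t * ∏ i, x t i ^ e.1 i) • (e.2 - e.1)) t

/-- Every variable-`k` weakly reversible system is permanent; the absorbing compact set depends
only on the graph, on `ε` and on `x₀`. -/
theorem result (n : ℕ) (E : Finset ((Fin n → ℝ) × (Fin n → ℝ)))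
    (hE : ∀ e ∈ E, Relation.ReflTransGen (fun u v => (u, v) ∈ E) e.2 e.1)
    (ε : ℝ) (hε : 0 < ε) (x₀ : Fin n → ℝ) (hx₀ : ∀ i, 0 < x₀ i) :
    ∃ K : Set (Fin n → ℝ), IsCompact K ∧
      K ⊆ {x | (∀ i, 0 < x i) ∧
        x - x₀ ∈ Submodule.span ℝ ((fun e : (Fin n → ℝ) × (Fin n → ℝ) => e.2 - e.1) '' E)} ∧
      ∀ k : (Fin n → ℝ) × (Fin n → ℝ) → ℝ → ℝ,
        (∀ e ∈ E, AEMeasurable (k e) volume) →
        (∀ e ∈ E, ∀ t, ε ≤ k e t ∧ k e t ≤ 1 / ε) →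
        ∀ (I : Set ℝ) (x : ℝ → Fin n → ℝ), IsSolution E k I x → (0 : ℝ) ∈ I →
          x 0 - x₀ ∈ Submodule.span ℝ ((fun e : (Fin n → ℝ) × (Fin n → ℝ) => e.2 - e.1) '' E) →
          (∃ z : ℝ → Fin n → ℝ, IsSolution E k (I ∪ Set.Ici 0) z ∧ Set.EqOn z x I) ∧
          (Set.Ici 0 ⊆ I → ∃ t₀ : ℝ, 0 < t₀ ∧ ∀ t, t₀ < t → x t ∈ K) := by
  obtain ⟨K, hK1, hK2, hK3⟩ := Pool.Agent.Lib.MP_5f8094_an.absorbing hε hE hx₀
  refine ⟨K, hK1, hK2, fun k hk1 hk2 I x hx h0 hS => ⟨?_, fun hI => ?_⟩⟩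
  · exact Pool.Agent.Lib.MP_5f8094_an.extend hε hE ⟨hk1, hk2⟩ hx.1 hx.2.1 hx.2.2.1 hx.2.2.2 h0
  · exact hK3 k ⟨hk1, hk2⟩ I x hx.1 hx.2.1 hx.2.2.1 hx.2.2.2 hS hI

end Pool.Agent.Results.MP_5f8094_an.Permanence
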